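import Mathlib
import Pool.Agent.Lib.helper11.Indep

namespace Pool.Agent.Results.MP_f21612_lc.RelCof

open Set Filter Cardinal Pool.Agent.Lib.helper11.Indep

/-- A proper ideal on the natural numbers containing all finite sets. -/
def IsIdeal (I : Set (Set ℕ)) : Prop :=
  (∀ A ∈ I, ∀ B, B ⊆ A → B ∈ I) ∧ (∀ A ∈ I, ∀ B ∈ I, A ∪ B ∈ I) ∧ Set.univ ∉ I ∧
    ∀ A : Set ℕ, A.Finite → A ∈ I

/-- An ideal maximal under inclusion among ideals. -/
def IsMaximalIdeal (I : Set (Set ℕ)) : Prop :=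
  IsIdeal I ∧ ∀ K, IsIdeal K → I ⊆ K → K = I

/-- The least size of a subfamily of `I` cofinal for inclusion. -/
noncomputable def cof (I : Set (Set ℕ)) : Cardinal.{0} :=
  sInf {c | ∃ B : Set (Set ℕ), B ⊆ I ∧ #B = c ∧ ∀ X ∈ I, ∃ Y ∈ B, X ⊆ Y}

/-- The least size of a subfamily of `I` cofinal for inclusion modulo `J`. -/
noncomputable def relCof (J I : Set (Set ℕ)) : Cardinal.{0} :=
  sInf {c | ∃ B : Set (Set ℕ), B ⊆ I ∧ #B = c ∧ ∀ X ∈ I, ∃ Y ∈ B, X \ Y ∈ J}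

lemma isIdeal_of_filter (F : Filter ℕ) [F.NeBot] (hF : F ≤ cofinite) :
    IsIdeal {X | Xᶜ ∈ F} := by
  refine ⟨fun A hA B h => mem_of_superset hA (compl_subset_compl.2 h), fun A hA B hB => ?_, ?_,
    fun A hA => hF hA.compl_mem_cofinite⟩
  · show (A ∪ B)ᶜ ∈ F
    rw [compl_union]
    exact inter_mem hA hB
  · show Set.univᶜ ∉ F
    rw [compl_univ]
    exact empty_notMem F

lemma exists_F₀ {W : Type} (A : W → Set ℕ) (B : Set ℕ → Set ℕ)
    (h : ∀ (s : Finset (W × Bool)) (P N : Set (Set ℕ)), Cons s → P.Finite → N.Finite →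
      Disjoint P N → (cell A s ∩ {m | (∀ x ∈ P, m ∈ B x) ∧ ∀ x ∈ N, m ∉ B x}).Infinite) :
    ∃ F : Filter ℕ, F ≤ cofinite ∧ (∀ x, B x ∈ F) ∧
      (∀ S : Set (Set ℕ), S.Infinite → (⋂ x ∈ S, B x)ᶜ ∈ F) ∧ ∀ s, Cons s → (cell A s)ᶜ ∉ F := by
  let Z : Set (Set ℕ) → Set (Set (Set ℕ)) → Set ℕ := fun P Q =>
    {m | (∀ x ∈ P, m ∈ B x) ∧ ∀ S ∈ Q, S.Infinite → ∃ x ∈ S, m ∉ B x}
  let F : Filter ℕ :=
    { sets := {Y | ∃ P Q, P.Finite ∧ Q.Finite ∧ (Z P Q \ Y).Finite}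
      univ_sets := ⟨∅, ∅, finite_empty, finite_empty, by simp⟩
      sets_of_superset := by
        rintro X Y ⟨P, Q, hP, hQ, h⟩ hXY
        exact ⟨P, Q, hP, hQ, h.subset (diff_subset_diff_right hXY)⟩
      inter_sets := by
        rintro X Y ⟨P, Q, hP, hQ, h⟩ ⟨P', Q', hP', hQ', h'⟩
        refine ⟨P ∪ P', Q ∪ Q', hP.union hP', hQ.union hQ', (h.union h').subset ?_⟩
        rintro m ⟨⟨h1, h2⟩, h3⟩
        by_cases hX : m ∈ X
        · exact Or.inr ⟨⟨fun x hx => h1 x (Or.inr hx), fun S hS => h2 S (Or.inr hS)⟩,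
            fun hY => h3 ⟨hX, hY⟩⟩
        · exact Or.inl ⟨⟨fun x hx => h1 x (Or.inl hx), fun S hS => h2 S (Or.inl hS)⟩, hX⟩ }
  refine ⟨F, fun Y hY => ⟨∅, ∅, finite_empty, finite_empty, ?_⟩, fun x => ⟨{x}, ∅,
    finite_singleton _, finite_empty, finite_empty.subset ?_⟩,
    fun S hS => ⟨∅, {S}, finite_empty, finite_singleton _, finite_empty.subset ?_⟩, ?_⟩
  · exact (mem_cofinite.1 hY).subset fun m hm => hm.2
  · exact fun m hm => hm.2 (hm.1.1 x rfl)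
  · intro m hm
    obtain ⟨x, hx, hx'⟩ := hm.1.2 S rfl hS
    exact hm.2 fun h => hx' (mem_iInter₂.1 h x hx)
  · rintro s hs ⟨P, Q, hP, hQ, hfin⟩
    have : ∀ S : Set (Set ℕ), ∃ x, S.Infinite → x ∈ S ∧ x ∉ P := by
      intro S
      by_cases hS : S.Infinite
      · obtain ⟨x, hx⟩ := (hS.diff hP).nonempty
        exact ⟨x, fun _ => hx⟩
      · exact ⟨∅, fun h => absurd h hS⟩
    choose c hc using this
    refine h s P (c '' {S | S ∈ Q ∧ S.Infinite}) hs hP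
      ((hQ.subset fun S hS => hS.1).image _) ?_ (hfin.subset ?_)
    · rw [Set.disjoint_right]
      rintro _ ⟨S, hS, rfl⟩
      exact (hc S hS.2).2
    · rintro m ⟨h1, h2, h3⟩
      exact ⟨⟨h2, fun S hS hS' => ⟨c S, (hc S hS').1, h3 _ ⟨S, ⟨hS, hS'⟩, rfl⟩⟩⟩, fun h => h h1⟩

lemma exists_AB (W : Type) (hW : #W ≤ 𝔠) : ∃ (A : W → Set ℕ) (B : Set ℕ → Set ℕ),
    ∀ (s : Finset (W × Bool)) (P N : Set (Set ℕ)), Cons s → P.Finite → N.Finite →
      Disjoint P N → (cell A s ∩ {m | (∀ x ∈ P, m ∈ B x) ∧ ∀ x ∈ N, m ∉ B x}).Infinite := by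
  obtain ⟨A, hA⟩ := exists_indep
  have hle : #(W ⊕ Set ℕ) ≤ #(Set ℕ) := by
    simp only [mk_sum, lift_id, mk_set_nat]
    exact (add_le_add hW le_rfl).trans (continuum_add_self).le
  obtain ⟨e⟩ := (Cardinal.le_def _ _).1 hle
  refine ⟨fun a => A (e (Sum.inl a)), fun x => A (e (Sum.inr x)), fun s P N hs hP hN hd => ?_⟩
  have f1 : ∀ b : Bool, {a | (a, b) ∈ s}.Finite := fun b =>
    (s.finite_toSet.image Prod.fst).subset fun a ha => ⟨(a, b), ha, rfl⟩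
  refine (hA (e '' (Sum.inl '' {a | (a, true) ∈ s} ∪ Sum.inr '' P))
    (e '' (Sum.inl '' {a | (a, false) ∈ s} ∪ Sum.inr '' N))
    ((((f1 true).image _).union (hP.image _)).image _)
    ((((f1 false).image _).union (hN.image _)).image _) ?_).mono ?_
  · rw [Set.disjoint_image_iff e.injective, Set.disjoint_left]
    rintro _ (⟨a, ha, rfl⟩ | ⟨a, ha, rfl⟩) (⟨b, hb, h⟩ | ⟨b, hb, h⟩)
    · cases h
      exact hs a ⟨ha, hb⟩
    · cases h
    · cases h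
    · cases h
      exact Set.disjoint_left.1 hd ha hb
  · rintro m ⟨h1, h2⟩
    refine ⟨?_, fun x hx => h1 _ ⟨_, Or.inr ⟨x, hx, rfl⟩, rfl⟩,
      fun x hx => h2 _ ⟨_, Or.inr ⟨x, hx, rfl⟩, rfl⟩⟩
    rintro ⟨a, b⟩ hp
    cases b
    · simpa using h2 _ ⟨_, Or.inl ⟨a, hp, rfl⟩, rfl⟩
    · simpa using h1 _ ⟨_, Or.inl ⟨a, hp, rfl⟩, rfl⟩

lemma cell_true {W : Type} (A : W → Set ℕ) (a : W) : cell A {(a, true)} = A a := by
  ext m
  simp [cell]

lemma cell_false {W : Type} (A : W → Set ℕ) (a : W) : cell A {(a, false)} = (A a)ᶜ := by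
  ext m
  simp [cell]

theorem result : ∃ I J : Set (Set ℕ), IsMaximalIdeal I ∧ cof I = 𝔠 ∧ IsIdeal J ∧ J ⊆ I ∧
    relCof J I = ℵ₁ := by
  classical
  let W : Type := (ℵ₁ : Cardinal.{0}).ord.ToType
  have hW : #W = ℵ₁ := mk_ord_toType _
  have hIio : ∀ a : W, (Iio a).Countable := fun a => by
    rw [← le_aleph0_iff_set_countable, ← Order.lt_succ_iff, succ_aleph0]
    exact mk_Iio_toType_ord_lt a
  have hbd : ∀ C : Set W, C.Countable → ∃ a, C ⊆ Iio a := by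
    intro C hC
    by_contra h
    push Not at h
    have : (Set.univ : Set W).Countable := by
      refine (hC.biUnion fun c _ => (hIio c).insert c).mono fun a _ => ?_
      obtain ⟨c, hc, hc'⟩ := not_subset.1 (h a)
      exact mem_biUnion hc (by simpa [le_iff_eq_or_lt] using hc')
    rw [← le_aleph0_iff_set_countable, mk_univ, hW] at this
    exact absurd this (not_le.2 aleph0_lt_aleph_one)
  obtain ⟨A, B, hAB⟩ := exists_AB W (hW.le.trans aleph_one_le_continuum)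
  obtain ⟨F₀, hF₀, hB, hB', hc₀⟩ := exists_F₀ A B hAB
  obtain ⟨F, hF, h1, h2⟩ := exists_max A F₀ hc₀
  obtain ⟨U, hU, hUA⟩ := exists_ultra A F {p | p.2 = true} fun s hs => h1 s fun a h => by
    simpa using hs _ h.2
  have hUA' : ∀ a, A a ∈ U := fun a => cell_true A a ▸ hUA (a, true) rfl
  have hsupp : ∀ X, ∃ a, Supp A F (Iio a) X := fun X => by
    obtain ⟨C, hC, h⟩ := exists_supp h1 h2 X
    obtain ⟨a, ha⟩ := hbd C hC
    exact ⟨a, h.mono ha⟩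
  have hx : ∀ a : W, ∃ V : Ultrafilter ℕ, (V : Filter ℕ) ≤ F ∧
      (∀ X ∈ U, Supp A F (Iio a) X → X ∈ V) ∧ ∀ b, a ≤ b → (A b)ᶜ ∈ V := by
    intro a
    let G : Filter ℕ :=
      { sets := {Y | ∃ X ∈ U, Supp A F (Iio a) X ∧ Xᶜ ∪ Y ∈ F}
        univ_sets := ⟨Set.univ, univ_mem, fun _ _ _ => by simp, by simp⟩
        sets_of_superset := by
          rintro X Y ⟨Z, h1, h2, h3⟩ hXY
          exact ⟨Z, h1, h2, mem_of_superset h3 (union_subset_union_right _ hXY)⟩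
        inter_sets := by
          rintro X Y ⟨Z, h1, h2, h3⟩ ⟨Z', h1', h2', h3'⟩
          refine ⟨Z ∩ Z', inter_mem h1 h1', h2.inter h2', ?_⟩
          filter_upwards [h3, h3'] with m hm hm'
          by_cases hz : m ∈ Z ∩ Z'
          · exact Or.inr ⟨hm.resolve_left fun h => h hz.1, hm'.resolve_left fun h => h hz.2⟩
          · exact Or.inl hz }
    obtain ⟨V, hV, hV'⟩ := exists_ultra A G {p | a ≤ p.1 ∧ p.2 = false} (by
      rintro s hs ⟨X, hX, hXs, hXF⟩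
      obtain ⟨t, ht, ht'⟩ := h2 X fun h => Ultrafilter.compl_notMem_iff.2 hX (hU h)
      have h3 := hXs t ht ht'
      refine h1 (t.filter (·.1 ∈ Iio a) ∪ s) ?_ ?_
      · rintro b ⟨b1, b2⟩
        rcases Finset.mem_union.1 b1 with b1 | b1
        · rcases Finset.mem_union.1 b2 with b2 | b2
          · exact ht b ⟨(Finset.mem_filter.1 b1).1, (Finset.mem_filter.1 b2).1⟩
          · exact absurd (Finset.mem_filter.1 b1).2 (not_lt.2 (hs _ b2).1)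
        · simpa using (hs _ b1).2
      · filter_upwards [h3, hXF] with m hm hm' hm''
        rw [cell_union] at hm''
        rcases hm with hm | hm
        · refine hm ?_
          convert hm''.1
        · exact hm'.elim (fun h => h hm) fun h => h hm''.2)
    refine ⟨V, fun Y hY => hV ⟨Set.univ, univ_mem, fun _ _ _ => by simp, by simpa using hY⟩,
      fun X hX hs => hV ⟨X, hX, hs, by simp⟩, fun b hb => ?_⟩
    exact cell_false A b ▸ hV' (b, false) ⟨hb, rfl⟩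
  choose V hV1 hV2 hV3 using hx
  have hconv : ∀ X ∈ U, ∃ a, ∀ b, a ≤ b → X ∈ V b := fun X hX => by
    obtain ⟨a, ha⟩ := hsupp X
    exact ⟨a, fun b hb => hV2 b X hX (ha.mono (Iio_subset_Iio hb))⟩
  obtain ⟨a₀, -⟩ := hbd ∅ countable_empty
  haveI : (⨆ a, (V a : Filter ℕ)).NeBot := (V a₀).neBot.mono (le_iSup (fun a => (V a : Filter ℕ)) a₀)
  have hI : IsIdeal {X | Xᶜ ∈ (U : Filter ℕ)} := isIdeal_of_filter _ (hU.trans (hF.trans hF₀))
  refine ⟨{X | Xᶜ ∈ (U : Filter ℕ)}, {X | Xᶜ ∈ ⨆ a, (V a : Filter ℕ)}, ⟨hI, fun K hK hIK => ?_⟩,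
    ?_, isIdeal_of_filter _ (iSup_le fun a => (hV1 a).trans (hF.trans hF₀)), fun X hX => ?_, ?_⟩
  · refine Subset.antisymm (fun X hX => ?_) hIK
    by_contra h
    have h' : X ∈ U := Ultrafilter.compl_notMem_iff.1 h
    have : Xᶜ ∈ K := hIK (show Xᶜᶜ ∈ (U : Filter ℕ) by rwa [compl_compl])
    have h3 := hK.2.1 X hX _ this
    rw [union_compl_self] at h3
    exact hK.2.2.1 h3
  · have hne : #{X : Set ℕ | Xᶜ ∈ (U : Filter ℕ)} ∈ {c | ∃ B : Set (Set ℕ),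
        B ⊆ {X | Xᶜ ∈ (U : Filter ℕ)} ∧ #B = c ∧
          ∀ X ∈ {X | Xᶜ ∈ (U : Filter ℕ)}, ∃ Y ∈ B, X ⊆ Y} :=
      ⟨_, Subset.rfl, rfl, fun X hX => ⟨X, hX, Subset.rfl⟩⟩
    refine le_antisymm ((csInf_le' hne).trans ((mk_set_le _).trans mk_set_nat.le))
      (le_csInf ⟨_, hne⟩ ?_)
    rintro _ ⟨T, hT, rfl, hT'⟩
    by_contra hlt
    rw [not_le, ← mk_set_nat] at hlt
    have : ∀ x : Set ℕ, ∃ Y : T, (B x)ᶜ ⊆ Y := fun x => by
      obtain ⟨Y, hY, h⟩ := hT' (B x)ᶜ (show (B x)ᶜᶜ ∈ (U : Filter ℕ) by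
        rw [compl_compl]; exact hU (hF (hB x)))
      exact ⟨⟨Y, hY⟩, h⟩
    choose f hf using this
    obtain ⟨Y, hY⟩ := exists_infinite_fiber f hlt
    have h3 : (⋂ x ∈ f ⁻¹' {Y}, B x)ᶜ ∈ U := hU (hF (hB' _ (infinite_coe_iff.1 hY)))
    have h4 : (Y : Set ℕ)ᶜ ∈ U := hT Y.2
    refine Ultrafilter.compl_notMem_iff.2 (mem_of_superset h4 fun m hm => ?_) h3
    refine mem_iInter₂.2 fun x hx => ?_
    by_contra h
    have := hf x h
    rw [show f x = Y from hx] at this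
    exact hm this
  · by_contra h
    have h' : X ∈ U := Ultrafilter.compl_notMem_iff.1 h
    obtain ⟨a, ha⟩ := hconv X h'
    exact Ultrafilter.compl_notMem_iff.2 (ha a le_rfl) (mem_iSup.1 hX a)
  · have hne : #(range fun a => (A a)ᶜ) ∈ {c | ∃ B : Set (Set ℕ),
        B ⊆ {X | Xᶜ ∈ (U : Filter ℕ)} ∧ #B = c ∧ ∀ X ∈ {X | Xᶜ ∈ (U : Filter ℕ)}, ∃ Y ∈ B,
          X \ Y ∈ {X | Xᶜ ∈ ⨆ a, (V a : Filter ℕ)}} := by
      refine ⟨_, ?_, rfl, fun X hX => ?_⟩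
      · rintro _ ⟨a, rfl⟩
        show (A a)ᶜᶜ ∈ (U : Filter ℕ)
        rw [compl_compl]
        exact hUA' a
      · obtain ⟨a, ha⟩ := hconv Xᶜ hX
        refine ⟨_, ⟨a, rfl⟩, mem_iSup.2 fun b => ?_⟩
        rcases le_total a b with h | h
        · exact mem_of_superset (ha b h) fun m hm h => hm h.1
        · exact mem_of_superset (hV3 b a h) fun m hm h => h.2 hm
    refine le_antisymm ((csInf_le' hne).trans (mk_range_le.trans hW.le)) (le_csInf ⟨_, hne⟩ ?_)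
    rintro _ ⟨T, hT, rfl, hT'⟩
    by_contra hlt
    rw [not_le, ← succ_aleph0, Order.lt_succ_iff, le_aleph0_iff_set_countable] at hlt
    have : ∀ Y ∈ T, ∃ a, ∀ b, a ≤ b → Yᶜ ∈ V b := fun Y hY => hconv _ (hT hY)
    haveI hWne : Nonempty W := ⟨a₀⟩
    choose! g hg using this
    obtain ⟨a, ha⟩ := hbd (g '' T) (hlt.image _)
    obtain ⟨Y, hY, h⟩ := hT' (A a)ᶜ (show (A a)ᶜᶜ ∈ (U : Filter ℕ) by
      rw [compl_compl]; exact hUA' a)
    have h3 : ((A a)ᶜ \ Y)ᶜ ∈ V a := mem_iSup.1 h a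
    exact Ultrafilter.compl_notMem_iff.2
      (inter_mem (hV3 a a le_rfl) (hg Y hY a (le_of_lt (ha ⟨Y, hY, rfl⟩)))) h3

end Pool.Agent.Results.MP_f21612_lc.RelCof
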